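import Pool.Agent.P8H79.RC.Stm5
import Pool.Agent.P8H7.RC.Sq2

/-! Project RC of helper79, package SQH (helper4); the lift is helper7's proof of SQB. -/

set_option autoImplicit false

namespace Pool.Agent.P8H4.RC

open Finset
open Pool.Agent.P8H79.RC Pool.Agent.P8H7.RC

theorem key {k : ℕ} (hk : 3 ≤ k) [NeZero (2 * (k + 2))]
    (e : SimpleGraph.cycleGraph (k + 2) ↪g Csq (2 * (k + 2))) (c : ℕ → Fin (k + 2))
    (hc : c = fun i => Fin.ofNat (k + 2) i) :
    (∀ i : ℕ, e (c i) = e (c 0) + 2 * (i : ZMod (2 * (k + 2)))) ∨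
    (∀ i : ℕ, e (c i) = e (c 0) - 2 * (i : ZMod (2 * (k + 2)))) := by
  obtain ⟨n, hnn⟩ : ∃ n, n = 2 * (k + 2) := ⟨_, rfl⟩
  have hn : 10 ≤ 2 * (k + 2) := by omega
  have hk : 2 ≤ k := by omega
  have c1 : ∀ i, c (i + 1) = c i + 1 := by
    intro i
    rw [hc]
    apply Fin.ext
    simp only [Fin.ofNat, Fin.val_add, Fin.val_one]
    exact (Nat.mod_add_mod _ _ _).symm
  have cp : ∀ i, c (i + (k + 2)) = c i := by
    intro i
    rw [hc]
    apply Fin.ext
    simp only [Fin.ofNat, Nat.add_mod_right]
  have hadj : ∀ u : Fin (k + 2), (Csq (2 * (k + 2))).Adj (e u) (e (u + 1)) := by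
    intro u
    rw [e.map_rel_iff, SimpleGraph.cycleGraph_adj]
    right
    rw [add_sub_cancel_left]
  have hs : ∀ u : Fin (k + 2), ∃ s : ℤ, s ≠ 0 ∧ |s| ≤ 2 ∧
      e (u + 1) = e u + (s : ZMod (2 * (k + 2))) := fun u => (adj_iff hn _ _).1 (hadj u)
  choose s s0 s2 se using hs
  obtain ⟨F, hF⟩ : ∃ F : ℕ → ℤ, F = fun i => ∑ t ∈ Finset.range i, s (c t) := ⟨_, rfl⟩
  have F0 : F 0 = 0 := by rw [hF]; simp
  have F1 : ∀ i, F (i + 1) = F i + s (c i) := fun i => by rw [hF]; exact Finset.sum_range_succ _ _
  have FE : ∀ i, e (c i) = e (c 0) + (F i : ZMod (2 * (k + 2))) := by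
    intro i
    induction i with
    | zero => rw [F0]; simp
    | succ i ih =>
      rw [c1, se, ih, F1]
      push_cast
      ring
  have Fd : ∀ i t, |F (i + t) - F i| ≤ 2 * t := by
    intro i t
    induction t with
    | zero => simp
    | succ t ih =>
      rw [← add_assoc, F1]
      have := s2 (c (i + t))
      rw [abs_le] at this ih ⊢
      push_cast
      constructor <;> linarith
  -- the total
  have FT : ∀ i, F (i + (k + 2)) = F i + F (k + 2) := by
    intro i
    induction i with
    | zero => rw [zero_add, F0, zero_add]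
    | succ i ih =>
      rw [show i + 1 + (k + 2) = i + (k + 2) + 1 by ring, F1, ih, cp, F1 i]
      ring
  have hT : F (k + 2) = 0 ∨ F (k + 2) = 2 * (k + 2) ∨ F (k + 2) = - (2 * (k + 2)) := by
    have h2 := FE (0 + (k + 2))
    rw [cp, zero_add] at h2
    have h3 : (F (k + 2) : ZMod (2 * (k + 2))) = 0 := by
      have := h2.symm
      rwa [add_eq_left] at this
    obtain ⟨m, hm⟩ := (ZMod.intCast_zmod_eq_zero_iff_dvd _ _).1 h3
    have h4 := Fd 0 (k + 2)
    rw [zero_add, F0, sub_zero, hm, abs_le] at h4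
    push_cast at h4 hm
    have hk0 : (0 : ℤ) < 2 * (k + 2) := by positivity
    have m1 : m ≤ 1 := by
      by_contra h
      have : 2 ≤ m := by omega
      nlinarith
    have m2 : -1 ≤ m := by
      by_contra h
      have : m ≤ -2 := by omega
      nlinarith
    have m3 : m = 0 ∨ m = 1 ∨ m = -1 := by omega
    rcases m3 with rfl | rfl | rfl
    · left; rw [hm]; ring
    · right; left; rw [hm]; ring
    · right; right; rw [hm]; ring
  rcases hT with hT | hT | hT
  · exfalso
    have Fp : ∀ i, F (i + (k + 2)) = F i := by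
      intro i; rw [FT, hT, add_zero]
    obtain ⟨m, hm, hmax⟩ := Finset.exists_max_image (Finset.Icc 1 (k + 2)) F ⟨1, by simp⟩
    rw [Finset.mem_Icc] at hm
    obtain ⟨p, rfl⟩ : ∃ p, m = p + 1 := ⟨m - 1, by omega⟩
    have g1 : F p ≤ F (p + 1) := by
      rcases Nat.eq_zero_or_pos p with h | h
      · subst h
        have := Fp 0
        rw [zero_add] at this
        rw [← this]
        exact hmax _ (by rw [Finset.mem_Icc]; omega)
      · exact hmax _ (by rw [Finset.mem_Icc]; omega)
    have g2 : F (p + 2) ≤ F (p + 1) := by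
      by_cases h : p + 2 ≤ k + 2
      · exact hmax _ (by rw [Finset.mem_Icc]; omega)
      · have h5 : p + 2 = 1 + (k + 2) := by omega
        rw [h5, Fp]
        exact hmax _ (by rw [Finset.mem_Icc]; omega)
    have u1 := F1 p
    have u2 : F (p + 2) = F (p + 1) + s (c (p + 1)) := F1 (p + 1)
    have v1 := s0 (c p)
    have v2 := s2 (c p)
    have w1 := s0 (c (p + 1))
    have w2 := s2 (c (p + 1))
    rw [abs_le] at v2 w2
    have hD : F (p + 2) - F p = 0 ∨ F (p + 2) - F p = 1 ∨ F (p + 2) - F p = -1 := by omega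
    have hc2 : c (p + 2) = c p + 1 + 1 := by
      rw [show p + 2 = p + 1 + 1 by ring, c1, c1]
    have hE : e (c (p + 2)) = e (c p) + ((F (p + 2) - F p : ℤ) : ZMod (2 * (k + 2))) := by
      rw [FE (p + 2), FE p]
      push_cast
      ring
    by_cases h0 : F (p + 2) - F p = 0
    · rw [h0, Int.cast_zero, add_zero] at hE
      have h6 := e.injective hE
      rw [hc2, add_assoc] at h6
      exact two_ne hk (add_eq_left.1 h6)
    · have ha : (Csq (2 * (k + 2))).Adj (e (c p)) (e (c (p + 2))) :=
        (adj_iff hn _ _).2 ⟨_, h0, by rw [abs_le]; omega, hE⟩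
      rw [e.map_rel_iff, SimpleGraph.cycleGraph_adj, hc2] at ha
      rcases ha with h | h
      · have h6 : (1 + 1 + 1 : Fin (k + 2)) = 0 := by
          have h7 : c p - (c p + 1 + 1) + (1 + 1) = 0 := by abel
          rw [h] at h7
          rw [← h7]; abel
        exact three_ne hk h6
      · have h6 : (1 : Fin (k + 2)) = 0 := by
          have h7 : c p + 1 + 1 - c p = 1 + 1 := by abel
          rw [h7] at h
          exact add_eq_left.1 h
        exact one_ne h6
  · left
    have st : ∀ i, s (c i) = 2 := by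
      intro i
      have h1 := Fd (i + 1) (k + 1)
      have h2 := FT i
      have h3 := F1 i
      rw [show i + 1 + (k + 1) = i + (k + 2) by ring, h2, hT, h3, abs_le] at h1
      have h4 := s2 (c i)
      rw [abs_le] at h4
      push_cast at h1
      linarith [h1.1, h1.2, h4.1, h4.2]
    intro i
    rw [FE]
    congr 1
    have : F i = 2 * i := by
      rw [hF]
      simp only [st]
      simp [mul_comm]
    rw [this]
    push_cast
    rfl
  · right
    have st : ∀ i, s (c i) = -2 := by
      intro i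
      have h1 := Fd (i + 1) (k + 1)
      have h2 := FT i
      have h3 := F1 i
      rw [show i + 1 + (k + 1) = i + (k + 2) by ring, h2, hT, h3, abs_le] at h1
      have h4 := s2 (c i)
      rw [abs_le] at h4
      push_cast at h1
      linarith [h1.1, h1.2, h4.1, h4.2]
    intro i
    rw [FE, sub_eq_add_neg]
    congr 1
    have : F i = - (2 * i) := by
      rw [hF]
      simp only [st]
      simp [mul_comm]
    rw [this]
    push_cast
    rfl

/-- **SQH** -/
theorem sqh : S_SQH := by
  classical
  intro L _ hL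
  obtain ⟨k, rfl⟩ : ∃ k, L = k + 2 := ⟨L - 2, by omega⟩
  obtain ⟨π, -⟩ : ∃ π : ZMod (2 * (k + 2)) →+* ZMod 2,
    π = ZMod.castHom (Dvd.intro _ rfl) (ZMod 2) := ⟨_, rfl⟩
  have h2 : (2 : ZMod 2) = 0 := by decide
  have hsub : ((Finset.univ : Finset (ZMod (2 * (k + 2)))).powersetCard (k + 2)).filter
      (fun S : Finset (ZMod (2 * (k + 2))) => Nonempty (SimpleGraph.cycleGraph (k + 2) ≃g
        (Csq (2 * (k + 2))).induce (S : Set (ZMod (2 * (k + 2)))))) ⊆
      {Finset.univ.filter (fun x => π x = 0), Finset.univ.filter (fun x => π x = 1)} := by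
    intro S hS
    rw [Finset.mem_filter] at hS
    obtain ⟨-, ⟨f⟩⟩ := hS
    let e : SimpleGraph.cycleGraph (k + 2) ↪g Csq (2 * (k + 2)) :=
      (SimpleGraph.Embedding.induce (S : Set (ZMod (2 * (k + 2))))).comp f.toEmbedding
    have he : ∀ u, e u = (f u : ZMod (2 * (k + 2))) := fun u => rfl
    obtain ⟨c, hc⟩ : ∃ c : ℕ → Fin (k + 2), c = fun i => Fin.ofNat (k + 2) i := ⟨_, rfl⟩
    have hcs : ∀ u : Fin (k + 2), c u.val = u := by
      intro u
      rw [hc]
      apply Fin.ext
      simp only [Fin.ofNat]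
      exact Nat.mod_eq_of_lt u.isLt
    have hmem : ∀ x, x ∈ S ↔ ∃ i : ℕ, x = e (c i) := by
      intro x
      constructor
      · intro hx
        obtain ⟨u, hu⟩ := f.surjective ⟨x, hx⟩
        refine ⟨u.val, ?_⟩
        rw [hcs, he, hu]
      · rintro ⟨i, rfl⟩
        rw [he]
        exact (f (c i)).2
    have hS : S = Finset.univ.filter (fun x => π x = π (e (c 0))) := by
      ext x
      rw [hmem, Finset.mem_filter]
      simp only [Finset.mem_univ, true_and]
      have hval : ∀ y : ZMod (2 * (k + 2)), π y = 0 → ∃ m : ℕ, y = 2 * (m : ZMod (2 * (k + 2))) := by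
        intro y hy
        have h1 : ((y.val : ℕ) : ZMod (2 * (k + 2))) = y := ZMod.natCast_zmod_val y
        have h3 : ((y.val : ℕ) : ZMod 2) = 0 := by
          rw [← hy, ← map_natCast π, h1]
        obtain ⟨m, hm⟩ := (ZMod.natCast_eq_zero_iff _ _).1 h3
        refine ⟨m, ?_⟩
        rw [← h1, hm]
        push_cast
        rfl
      rcases key (by omega) e c hc with h | h
      · constructor
        · rintro ⟨i, rfl⟩
          rw [h i, map_add, map_mul, map_ofNat, h2, zero_mul, add_zero]
        · intro hx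
          obtain ⟨m, hm⟩ := hval (x - e (c 0)) (by rw [map_sub, hx, sub_self])
          refine ⟨m, ?_⟩
          rw [h m, ← hm]
          ring
      · constructor
        · rintro ⟨i, rfl⟩
          rw [h i, map_sub, map_mul, map_ofNat, h2, zero_mul, sub_zero]
        · intro hx
          obtain ⟨m, hm⟩ := hval (e (c 0) - x) (by rw [map_sub, hx, sub_self])
          refine ⟨m, ?_⟩
          rw [h m, ← hm]
          ring
    rw [hS]
    have h01 : ∀ z : ZMod 2, z = 0 ∨ z = 1 := by decide
    rw [Finset.mem_insert, Finset.mem_singleton]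
    rcases h01 (π (e (c 0))) with h | h
    · left; rw [h]
    · right; rw [h]
  unfold holes
  refine le_trans (le_of_eq ?_) ((Finset.card_le_card hsub).trans Finset.card_le_two)
  congr

end Pool.Agent.P8H4.RC
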